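import Mathlib
import Pool.Agent.N410.LD.LocalT
import Pool.Agent.Run7.h320.E.Eng

/-!
# The list edge-colouring conjecture when large vertices have few large neighbours

All error terms are a small proportion of the maximum degree; they do not depend on the number of
vertices of the graph or of its components.
-/

set_option autoImplicit false

namespace Pool.Agent.Results.MP_2f9829_co.LargeMaximumDegree

/-- The edges of `G` can be properly coloured from all lists of at least `k` colours. -/
def EdgeChoosable {V : Type} (G : SimpleGraph V) (k : ℕ) : Prop :=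
  ∀ L : G.edgeSet → Finset ℕ, (∀ e, k ≤ (L e).card) →
    ∃ f : G.edgeSet → ℕ, (∀ e, f e ∈ L e) ∧ ∀ e e', G.lineGraph.Adj e e' → f e ≠ f e'

/-- The list edge-colouring conjecture for the graph `G`. -/
def ListEdge {V : Type} (G : SimpleGraph V) : Prop :=
  ∀ k : ℕ, G.lineGraph.Colorable k ↔ EdgeChoosable G k

/-- The number of neighbours of `v`. -/
noncomputable def deg {V : Type} (G : SimpleGraph V) (v : V) : ℕ := (G.neighborSet v).ncard

/-- The number of neighbours of `v` in `W`. -/
noncomputable def degIn {V : Type} (G : SimpleGraph V) (W : Set V) (v : V) : ℕ :=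
  (G.neighborSet v ∩ W).ncard

/-- For every `ε > 0` there is `D₀` such that the following holds for every `D ≥ D₀` and every
finite simple graph `G` all of whose degrees are at most `D`. Each of the conditions (1) and (2)
implies that `G` is edge-colourable from all lists of `D` colours and, if `D` is the maximum degree
of `G`, that the list edge-colouring conjecture holds for `G`.

(1) There is a set `W` of vertices such that, for the graph `F` of the edges inside `W` and the
graph `H` of the edges `u v` outside `W` with `deg u + deg v ≥ D + 2`,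
* `F` is edge-colourable from all lists of `D` colours, or all its degrees are at most `(1 - ε) D`;
* an edge `u w` with `u` outside and `w` in `W` satisfies `dW u + dW w ≤ D` (`dW` = number of
  neighbours in `W`);
* all edges `u v` of `H` satisfy `dW u + dW v + degH u ≤ (1 - ε) D` (in both orders).

(2) There are `k`, `a`, `b` such that every vertex of degree at most `k` has at most `b` neighbours
of degree more than `k`, every vertex of degree more than `k` has at most `a` such neighbours,
`a + b ≤ D`, `a ≤ (1 - ε) D`, and `2 k ≤ D + 1` or `k + b ≤ (1 - ε) D`. -/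
theorem result : ∀ ε : ℝ, 0 < ε → ∃ D₀ : ℕ, ∀ D : ℕ, D₀ ≤ D → ∀ (V : Type) [Fintype V]
    (G : SimpleGraph V), (∀ v, deg G v ≤ D) →
    ((∃ (W : Set V) (F H : SimpleGraph V),
        (∀ u v, F.Adj u v ↔ G.Adj u v ∧ u ∈ W ∧ v ∈ W) ∧
        (∀ u v, H.Adj u v ↔ G.Adj u v ∧ u ∉ W ∧ v ∉ W ∧ D + 2 ≤ deg G u + deg G v) ∧
        (EdgeChoosable F D ∨ ∀ v, (deg F v : ℝ) ≤ (1 - ε) * D) ∧
        (∀ u w, G.Adj u w → u ∉ W → w ∈ W → degIn G W u + degIn G W w ≤ D) ∧
        ∀ u v, H.Adj u v → (degIn G W u : ℝ) + degIn G W v + deg H u ≤ (1 - ε) * D) ∨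
      (∃ k a b : ℕ,
        (∀ v, deg G v ≤ k → degIn G {w | k < deg G w} v ≤ b) ∧
        (∀ v, k < deg G v → degIn G {w | k < deg G w} v ≤ a) ∧
        a + b ≤ D ∧ (a : ℝ) ≤ (1 - ε) * D ∧
        (2 * k ≤ D + 1 ∨ (k : ℝ) + b ≤ (1 - ε) * D))) →
    EdgeChoosable G D ∧ ((∃ v, deg G v = D) → ListEdge G) := by
  classical
  intro ε hε
  obtain ⟨ε', hε'⟩ : ∃ ε' : ℝ, ε' = min ε 1 := ⟨_, rfl⟩
  have he0 : 0 < ε' := by
    rw [hε']
    exact lt_min hε one_pos
  have he1 : ε' ≤ 1 := by
    rw [hε']
    exact min_le_right _ _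
  have hee : ε' ≤ ε := by
    rw [hε']
    exact min_le_left _ _
  obtain ⟨D₀, hD₀⟩ := Pool.Agent.Run7.h320.E.lkg ε' he0 he1
  refine ⟨D₀, ?_⟩
  intro D hDD V _ G hD
  have hDR : (0 : ℝ) ≤ D := Nat.cast_nonneg _
  have hεD : (1 - ε) * (D : ℝ) ≤ (1 - ε') * D :=
    mul_le_mul_of_nonneg_right (by linarith) hDR
  have hεD' : (1 - ε') * (D : ℝ) ≤ D := by
    have : 0 ≤ ε' * (D : ℝ) := by positivity
    linarith
  have hch : ∀ (F : SimpleGraph V) (l : ℕ),
      EdgeChoosable F l ↔ Pool.Agent.TH559.LE.Choosable F l := fun _ _ => Iff.rfl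
  -- subgraphs, lists on pairs
  have hsub : ∀ (F : SimpleGraph V) (L : Sym2 V → Finset ℕ), F ≤ G →
      (∀ u v, F.Adj u v → (deg F u : ℝ) + ε' * D ≤ (L s(u, v)).card) →
      ∃ c, Pool.Agent.TH559.LE.Ok F L c := by
    intro F L hF hL
    obtain ⟨χ, h1, h2⟩ := hD₀ D hDD V ℕ F L (fun v => by
      rw [Pool.Agent.Run7.h320.E.dg_ncard]
      exact (Set.ncard_le_ncard (fun w hw => hF hw) (Set.toFinite _)).trans (hD v))
      (fun u v huv => by
        rw [Pool.Agent.Run7.h320.E.dg_ncard]
        exact hL u v huv)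
    exact ⟨χ, h1, h2⟩
  have hfin : EdgeChoosable G D →
      EdgeChoosable G D ∧ ((∃ v, deg G v = D) → ListEdge G) := by
    intro h
    refine ⟨h, ?_⟩
    rintro ⟨v, hv⟩ k
    exact Pool.Agent.TH559.LE.lecc G D h v hv k
  -- graphs with degrees at most `(1 - ε) D`
  have hlow : ∀ F : SimpleGraph V, F ≤ G →
      (∀ v, (deg F v : ℝ) ≤ (1 - ε') * D) → EdgeChoosable F D := by
    intro F hFG hF
    rw [hch, Pool.Agent.TH559.LE.choosable_iff]
    intro L hL
    apply hsub F L hFG
    intro u v huv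
    have h3 : (D : ℝ) ≤ (L s(u, v)).card := by exact_mod_cast hL u v huv
    have h4 := hF u
    linarith
  -- (1)
  have h2 : ∀ (W : Set V) (F H : SimpleGraph V),
      (∀ u v, F.Adj u v ↔ G.Adj u v ∧ u ∈ W ∧ v ∈ W) →
      (∀ u v, H.Adj u v ↔ G.Adj u v ∧ u ∉ W ∧ v ∉ W ∧ D + 2 ≤ deg G u + deg G v) →
      (EdgeChoosable F D ∨ ∀ v, (deg F v : ℝ) ≤ (1 - ε) * D) →
      (∀ u w, G.Adj u w → u ∉ W → w ∈ W → degIn G W u + degIn G W w ≤ D) →
      (∀ u v, H.Adj u v →
        (degIn G W u : ℝ) + degIn G W v + deg H u ≤ (1 - ε) * D) →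
      EdgeChoosable G D := by
    intro W F H hF hH hcF hcross hl
    have hFG : F ≤ G := fun a b h => ((hF a b).1 h).1
    have hHG : H ≤ G := fun a b h => ((hH a b).1 h).1
    have hcF' : EdgeChoosable F D := by
      rcases hcF with h | h
      · exact h
      · exact hlow F hFG (fun v => (h v).trans hεD)
    refine Pool.Agent.N410.LD.of_parts_local G F H W D hD hF hH hcross hcF' ?_
    intro L' hL'
    apply hsub H L' hHG
    intro u v huv
    have h3 := hl u v huv
    have h4 : (D : ℝ) ≤ (L' s(u, v)).card + degIn G W u + degIn G W v := by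
      exact_mod_cast hL' u v huv
    linarith
  rintro (⟨W, F, H, hF, hH, hcF, hcross, hl⟩ | ⟨k, a, b, hk1, hk2, hab, ha, hkb⟩)
  · exact hfin (h2 W F H hF hH hcF hcross hl)
  -- (2)
  apply hfin
  obtain ⟨W, hW⟩ : ∃ W : Set V, W = {w | k < deg G w} := ⟨_, rfl⟩
  rw [← hW] at hk1 hk2
  let F : SimpleGraph V :=
    { Adj := fun a b => G.Adj a b ∧ a ∈ W ∧ b ∈ W
      symm := ⟨fun a b h => ⟨h.1.symm, h.2.2, h.2.1⟩⟩
      loopless := ⟨fun a h => G.loopless.irrefl a h.1⟩ }
  let H : SimpleGraph V :=
    { Adj := fun a b => G.Adj a b ∧ a ∉ W ∧ b ∉ W ∧ D + 2 ≤ deg G a + deg G b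
      symm := ⟨fun a b h => ⟨h.1.symm, h.2.2.1, h.2.1, h.2.2.2.trans (Nat.add_comm _ _).le⟩⟩
      loopless := ⟨fun a h => G.loopless.irrefl a h.1⟩ }
  have hmem : ∀ v, v ∈ W ↔ k < deg G v := fun v => by rw [hW]; exact Iff.rfl
  refine h2 W F H (fun _ _ => Iff.rfl) (fun _ _ => Iff.rfl) ?_ ?_ ?_
  · right
    intro v
    by_cases hv : k < deg G v
    · have h3 := hk2 v hv
      have h4 : deg F v = degIn G W v := by
        unfold deg degIn
        congr 1
        ext w
        show (G.Adj v w ∧ v ∈ W ∧ w ∈ W) ↔ _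
        simp only [SimpleGraph.mem_neighborSet, Set.mem_inter_iff, hmem]
        tauto
      rw [h4]
      have h5 : (degIn G W v : ℝ) ≤ a := by exact_mod_cast h3
      exact h5.trans ha
    · have h4 : deg F v = 0 := by
        unfold deg
        rw [Set.ncard_eq_zero (Set.toFinite _)]
        ext w
        simp only [SimpleGraph.mem_neighborSet, Set.mem_empty_iff_false, iff_false]
        intro h
        exact hv ((hmem v).1 h.2.1)
      rw [h4]
      push_cast
      have h5 : (0 : ℝ) ≤ a := Nat.cast_nonneg _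
      exact h5.trans ha
  · intro u w huw hu hw
    have h3 := hk1 u (by rw [hmem] at hu; omega)
    have h4 := hk2 w ((hmem w).1 hw)
    omega
  · intro u v huv
    have hu : u ∉ W := huv.2.1
    have hv : v ∉ W := huv.2.2.1
    have hu' : deg G u ≤ k := by rw [hmem] at hu; omega
    have hv' : deg G v ≤ k := by rw [hmem] at hv; omega
    have hd : D + 2 ≤ deg G u + deg G v := huv.2.2.2
    rcases hkb with h2k | hkb
    · omega
    have h3 := hk1 v hv'
    have h4 : deg H u + degIn G W u ≤ k := by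
      have h5 : deg H u ≤ (G.neighborSet u \ W).ncard := by
        apply Set.ncard_le_ncard _ (Set.toFinite _)
        intro x hx
        exact ⟨hx.1, hx.2.2.1⟩
      have h6 : (G.neighborSet u \ W).ncard + (G.neighborSet u ∩ W).ncard = deg G u := by
        rw [add_comm]
        exact Set.ncard_inter_add_ncard_sdiff_eq_ncard _ _ (Set.toFinite _)
      unfold degIn
      omega
    have h5 : (deg H u : ℝ) + degIn G W u ≤ k := by exact_mod_cast h4
    have h6 : (degIn G W v : ℝ) ≤ b := by exact_mod_cast h3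
    linarith

end Pool.Agent.Results.MP_2f9829_co.LargeMaximumDegree
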