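import Pool.Agent.Results.MP_2f9829_co.LargeMaximumDegree
import Pool.Agent.Run7.h320.RG.J

/-!
# The list edge-colouring conjecture for random graphs of logarithmic average degree

Let `t` be the level such that the expected number of vertices of degree at least `t` is about a
large constant. If `q n ≤ K log n` and `ε` is small in terms of `K`, the expected number of vertices
of degree at least `(1 - ε) t` is at most `n ^ (1/6)`, so that they are far apart, and there is a
vertex of degree at least `t` by the second moment method. The rest of the graph is handled by the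
nibble with local list sizes.
-/

set_option autoImplicit false

namespace Pool.Agent.Results.MP_2f9829_co.SparseRandomGraphs

open Pool.Agent.Results.MP_2f9829_co.LargeMaximumDegree (degIn)

/-- The edges of `G` can be properly coloured from all lists of at least `k` colours. -/
def EdgeChoosable {V : Type} (G : SimpleGraph V) (k : ℕ) : Prop :=
  ∀ L : G.edgeSet → Finset ℕ, (∀ e, k ≤ (L e).card) →
    ∃ f : G.edgeSet → ℕ, (∀ e, f e ∈ L e) ∧ ∀ e e', G.lineGraph.Adj e e' → f e ≠ f e'

/-- The list edge-colouring conjecture for the graph `G`. -/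
def ListEdge {V : Type} (G : SimpleGraph V) : Prop :=
  ∀ k : ℕ, G.lineGraph.Colorable k ↔ EdgeChoosable G k

/-- `IsMaxDegree G D`: the maximum degree of `G` is `D`. -/
def IsMaxDegree {V : Type} (G : SimpleGraph V) (D : ℕ) : Prop :=
  (∀ v, (G.neighborSet v).ncard ≤ D) ∧ ∃ v, (G.neighborSet v).ncard = D

/-- The probability of the property `P` for the random graph `G(n, q)` on the vertices `0, …, n - 1`:
the graph `G` has the weight `q ^ m (1 - q) ^ (n (n - 1) / 2 - m)`, where `m` is the number of its
edges. -/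
noncomputable def prob {n : ℕ} (q : ℝ) (P : SimpleGraph (Fin n) → Prop) : ℝ := by
  classical exact ∑ G : SimpleGraph (Fin n), if P G then
    q ^ G.edgeSet.ncard * (1 - q) ^ (n.choose 2 - G.edgeSet.ncard) else 0

/-- For all `K > 0` and `δ > 0` there is `n₀` such that for all `n ≥ n₀` and all `q` with
`1 ≤ q n ≤ K log n` the following holds with probability at least `1 - δ` for the random graph
`G(n, q)`: it is edge-colourable from all lists of `D` colours, where `D` is its maximum degree, and
it satisfies the list edge-colouring conjecture. -/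
theorem result (K δ : ℝ) (hδ : 0 < δ) : ∃ n₀ : ℕ, ∀ n : ℕ, n₀ ≤ n → ∀ q : ℝ,
    1 ≤ q * n → q * n ≤ K * Real.log n →
    1 - δ ≤ prob q (fun G : SimpleGraph (Fin n) =>
      ∃ D, IsMaxDegree G D ∧ EdgeChoosable G D ∧ ListEdge G) := by
  obtain ⟨ε, hε0, hε1, h⟩ := Pool.Agent.Run7.h320.RG.whp_tame K
  obtain ⟨D₁, hD₁⟩ := Pool.Agent.Results.MP_2f9829_co.LargeMaximumDegree.result (ε / 2)
    (by positivity)
  obtain ⟨n₀, hn₀⟩ := h (max (max D₁ ⌈4 / ε⌉₊) 4) δ hδ
  refine ⟨n₀, fun n hn q hq hqK => ?_⟩
  rw [mul_comm] at hq hqK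
  refine hn₀ n hn q hq hqK _ ?_
  rintro G ⟨D, k, hD, hk, hmax, hex, hfar⟩
  have hD1 : D₁ ≤ D := ((le_max_left _ _).trans (le_max_left _ _)).trans hD
  have hD2 : 4 / ε ≤ (D : ℝ) := (Nat.le_ceil _).trans
    (by exact_mod_cast ((le_max_right _ _).trans (le_max_left _ _)).trans hD)
  have hD4 : 4 ≤ D := (le_max_right _ _).trans hD
  rw [div_le_iff₀ hε0] at hD2
  have hmain := hD₁ D hD1 (Fin n) G hmax (Or.inr ⟨k, 0, 1, ?_, ?_, by omega, ?_, Or.inr ?_⟩)
  · exact ⟨D, ⟨hmax, hex⟩, hmain.1, hmain.2 hex⟩
  · -- at most one large neighbour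
    intro v _
    unfold degIn
    rw [Set.ncard_le_one (Set.toFinite _)]
    rintro a ⟨ha, ha'⟩ b ⟨hb, hb'⟩
    by_contra hab
    exact (hfar a b hab (le_of_lt ha') (le_of_lt hb')).2 v ⟨G.adj_symm ha, G.adj_symm hb⟩
  · -- no large neighbour
    intro v hv
    unfold degIn
    rw [Nat.le_zero, Set.ncard_eq_zero (Set.toFinite _)]
    ext w
    constructor
    · rintro ⟨hw, hw'⟩
      exact (hfar v w (G.ne_of_adj hw) (le_of_lt hv) (le_of_lt hw')).1 hw
    · intro hw
      exact absurd hw (Set.notMem_empty w)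
  · have h2 : (0 : ℝ) ≤ (1 - ε / 2) * D := mul_nonneg (by linarith) (Nat.cast_nonneg _)
    simpa using h2
  · have h2 : (1 - ε / 2) * (D : ℝ) = (1 - ε) * D + (D * ε) / 2 := by ring
    push_cast
    rw [h2]
    linarith

end Pool.Agent.Results.MP_2f9829_co.SparseRandomGraphs
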